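import Pool.Agent.helper84.WZ.SpecA

set_option autoImplicit false

namespace WZ

theorem ONE_aux1 (hWDA : WDA_stmt) (T : Type) (S : Sys T) (σ : ℕ → T) (β : S.St) (r s : ℕ)
    (e : ℕ → ℕ) (h : S.DX σ β r s e) :
    s = r → ∃ n : ℕ, e = Pi.single r n ∧ S.Der β (List.replicate n (σ r)) := by
  induction h with
  | nl h => intro _; exact ⟨0, by simp, by simpa using Sys.Der.nl h⟩
  | @rd β γ r q s e hrd hrq hDX ih =>
    intro hsr
    subst hsr
    have h1 := (hWDA T S σ γ q s e hDX).1
    have h2 : s = q := le_antisymm hrq h1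
    obtain ⟨n, hn, hd⟩ := ih h2
    subst h2
    refine ⟨n + 1, ?_, ?_⟩
    · rw [hn, ← Pi.single_add]
    · rw [List.replicate_succ]
      exact Sys.Der.rd hrd hd
  | @sp β α γ r q s e e' hsp h1 h2 ih1 ih2 =>
    intro hsr
    subst hsr
    have hrq := (hWDA T S σ α s q e h1).1
    have hqs := (hWDA T S σ γ q s e' h2).1
    have h3 : q = s := le_antisymm hqs hrq
    subst h3
    obtain ⟨n, hn, hd⟩ := ih1 rfl
    obtain ⟨n', hn', hd'⟩ := ih2 rfl
    refine ⟨n + n', ?_, ?_⟩
    · rw [hn, hn', ← Pi.single_add]
    · rw [List.replicate_add]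
      exact Sys.Der.sp hsp hd hd'

theorem ONE_aux2 (T : Type) (S : Sys T) (σ : ℕ → T) (β : S.St) (r : ℕ) (w : List T)
    (h : S.Der β w) : ∀ n : ℕ, w = List.replicate n (σ r) → S.DX σ β r r (Pi.single r n) := by
  induction h with
  | nl h =>
    intro n hn
    have : n = 0 := by simpa using (congrArg List.length hn).symm
    subst this
    simpa using Sys.DX.nl h
  | @rd β γ a w hrd hd ih =>
    intro n hn
    cases n with
    | zero => simp at hn
    | succ m =>
      rw [List.replicate_succ, List.cons.injEq] at hn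
      obtain ⟨h1, h2⟩ := hn
      subst h1
      have := Sys.DX.rd hrd le_rfl (ih m h2)
      rwa [← Pi.single_add] at this
  | @sp β α γ u v hsp h1 h2 ih1 ih2 =>
    intro n hn
    have hlen : u.length + v.length = n := by
      have := congrArg List.length hn
      simpa using this
    have hu : u = List.replicate u.length (σ r) := by
      rw [List.eq_replicate_iff]
      refine ⟨rfl, fun b hb => ?_⟩
      have : b ∈ u ++ v := List.mem_append_left _ hb
      rw [hn] at this
      exact List.eq_of_mem_replicate this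
    have hv : v = List.replicate v.length (σ r) := by
      rw [List.eq_replicate_iff]
      refine ⟨rfl, fun b hb => ?_⟩
      have : b ∈ u ++ v := List.mem_append_right _ hb
      rw [hn] at this
      exact List.eq_of_mem_replicate this
    have := Sys.DX.sp hsp (ih1 _ hu) (ih2 _ hv)
    rwa [← Pi.single_add, hlen] at this

theorem ONE (hWDA : WDA_stmt) : ONE_stmt := by
  intro T S σ β r e
  constructor
  · intro h
    exact ONE_aux1 hWDA T S σ β r r e h rfl
  · rintro ⟨n, rfl, hd⟩
    exact ONE_aux2 T S σ β r _ hd n rfl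

end WZ
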