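import Pool.Agent.helper84.WZ.SpecA

set_option autoImplicit false

namespace WZ

open DZ

theorem RE_flat (N : ℕ) (f : ℕ → List (Fin 6)) :
    DZ.ev ((List.range N).flatMap f) = ((List.range N).map (fun q => DZ.ev (f q))).prod := by
  induction N with
  | zero => simp [DZ.ev]
  | succ N ih =>
    rw [List.range_succ, List.flatMap_append, DZ.ev_append, ih, List.map_append, List.prod_append]
    simp

theorem RE_blocks {M : Type} [Monoid M] (L n : ℕ) (g : ℕ → M) :
    ((List.range (n * L)).map g).prod =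
      ((List.range n).map (fun p => ((List.range L).map (fun u => g (p * L + u))).prod)).prod := by
  induction n with
  | zero => simp
  | succ n ih =>
    rw [Nat.succ_mul, List.range_add, List.map_append, List.prod_append, ih, List.range_succ,
      List.map_append, List.prod_append]
    simp [List.map_map, Function.comp_def]

theorem RE_getElem {α M : Type} [Monoid M] (f : α → M) (l : List α) (n : ℕ) (hn : l.length ≤ n) :
    ((List.range n).map (fun p => (l[p]?).elim 1 f)).prod = (l.map f).prod := by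
  induction l generalizing n with
  | nil => simp
  | cons x l ih =>
    cases n with
    | zero => simp at hn
    | succ n =>
      rw [List.range_succ_eq_map, List.map_cons, List.prod_cons, List.map_map, List.map_cons,
        List.prod_cons]
      congr 1
      rw [← ih n (by simpa using hn)]
      congr 1


theorem RE_ev_rep (k : ℕ) (a : Fin 6) : DZ.ev (List.replicate k a) = DZ.letter a ^ k := by
  simp [DZ.ev]

theorem RE_l0 (k : ℕ) : DZ.letter 0 ^ k = DZ.zz ((k : ℤ), 0) := by
  show (Monoid.Coprod.inl (Multiplicative.ofAdd ((1, 0) : ℤ × ℤ))) ^ k = _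
  rw [← map_pow, ← ofAdd_nsmul, DZ.zz]
  simp

theorem RE_l2 (k : ℕ) : DZ.letter 2 ^ k = DZ.zz (0, (k : ℤ)) := by
  show (Monoid.Coprod.inl (Multiplicative.ofAdd ((0, 1) : ℤ × ℤ))) ^ k = _
  rw [← map_pow, ← ofAdd_nsmul, DZ.zz]
  simp

theorem RE_l1 (k : ℕ) : DZ.letter 1 ^ k = DZ.zz (-(k : ℤ), 0) := by
  show (Monoid.Coprod.inl (Multiplicative.ofAdd ((1, 0) : ℤ × ℤ)))⁻¹ ^ k = _
  rw [← map_inv, ← map_pow, ← ofAdd_neg, ← ofAdd_nsmul, DZ.zz]
  simp

theorem RE_l3 (k : ℕ) : DZ.letter 3 ^ k = DZ.zz (0, -(k : ℤ)) := by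
  show (Monoid.Coprod.inl (Multiplicative.ofAdd ((0, 1) : ℤ × ℤ)))⁻¹ ^ k = _
  rw [← map_inv, ← map_pow, ← ofAdd_neg, ← ofAdd_nsmul, DZ.zz]
  simp

/-- the letter of run `u` in a block, `h = m + 1` -/
def RE_sg (m u : ℕ) : Fin 6 :=
  if u < 2 * m then (if u % 2 = 0 then 0 else 2)
  else if u = 2 * m then 1
  else if u = 2 * m + 1 then 3
  else if u = 2 * m + 2 then 4 else 5

theorem RE_sg_eq (m p u : ℕ) (hu : u < 2 * (m + 1) + 2) :
    sg (m + 1) (p * (2 * (m + 1) + 2) + u) = RE_sg m u := by
  have h1 : (p * (2 * (m + 1) + 2) + u) % (2 * (m + 1) + 2) = u := by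
    rw [Nat.mul_add_mod_self_right]
    exact Nat.mod_eq_of_lt hu
  unfold sg RE_sg
  rw [h1]
  have h2 : 2 * (m + 1) - 2 = 2 * m := by omega
  have h3 : 2 * (m + 1) - 1 = 2 * m + 1 := by omega
  have h4 : 2 * (m + 1) = 2 * m + 2 := by omega
  rw [h2, h3, h4]

theorem RE_ex_eq (h R D : ℕ) (s : W) (p u : ℕ) (hu : u < 2 * h + 2) :
    ex h R D s (p * (2 * h + 2) + u) = (s.toList[p]?).elim 0 (fun x => exl h R D p x u) := by
  have h0 : 0 < 2 * h + 2 := by omega
  have h1 : (p * (2 * h + 2) + u) % (2 * h + 2) = u := by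
    rw [Nat.mul_add_mod_self_right]
    exact Nat.mod_eq_of_lt hu
  have h2 : (p * (2 * h + 2) + u) / (2 * h + 2) = p := by
    rw [mul_comm, Nat.mul_add_div h0, Nat.div_eq_of_lt hu, add_zero]
  unfold ex
  rw [h1, h2]
  cases s.toList[p]? <;> rfl

/-- the long part of a block -/
theorem RE_long (m R D p : ℕ) (v : ℤ × ℤ) (m' : ℕ) (hm' : m' ≤ m) :
    ((List.range (2 * m')).map (fun u => DZ.letter (RE_sg m u) ^ exl (m + 1) R D p (Lt.k v) u)).prod =
      DZ.zz (((∑ i ∈ Finset.range m', R ^ (p * (2 * (m + 1) + 2) + (2 * i + 0) + 1) : ℕ) : ℤ),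
        ((∑ i ∈ Finset.range m', R ^ (p * (2 * (m + 1) + 2) + (2 * i + 1) + 1) : ℕ) : ℤ)) := by
  induction m' with
  | zero =>
    simp only [Nat.mul_zero, List.range_zero, List.map_nil, List.prod_nil, Finset.range_zero,
      Finset.sum_empty, Nat.cast_zero, DZ.zz]
    exact (map_one Monoid.Coprod.inl).symm
  | succ k ih =>
    have e1 : 2 * (k + 1) = 2 * k + 1 + 1 := by ring
    rw [e1, List.range_succ, List.range_succ, List.map_append, List.map_append, List.prod_append,
      List.prod_append, ih (by omega)]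
    have s1 : RE_sg m (2 * k) = 0 := by
      unfold RE_sg
      rw [if_pos (by omega), if_pos (by omega)]
    have s2 : RE_sg m (2 * k + 1) = 2 := by
      unfold RE_sg
      rw [if_pos (by omega), if_neg (by omega)]
    have x1 : exl (m + 1) R D p (Lt.k v) (2 * k) =
        R ^ (p * (2 * (m + 1) + 2) + (2 * k + 0) + 1) := by
      unfold exl
      simp only
      rw [if_pos (by omega), add_zero]
    have x2 : exl (m + 1) R D p (Lt.k v) (2 * k + 1) =
        R ^ (p * (2 * (m + 1) + 2) + (2 * k + 1) + 1) := by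
      unfold exl
      simp only
      rw [if_pos (by omega)]
    simp only [List.map_cons, List.map_nil, List.prod_cons, List.prod_nil, mul_one]
    rw [s1, s2, x1, x2, RE_l0, RE_l2, ← DZ.zz_add, ← DZ.zz_add, Finset.sum_range_succ,
      Finset.sum_range_succ]
    congr 1

theorem RE_SR (m R p j : ℕ) (hm : 1 ≤ m) : R ≤ SR (m + 1) R p j := by
  unfold SR
  have h1 : R ^ (p * (2 * (m + 1) + 2) + (2 * 0 + j) + 1) ≤
      ∑ i ∈ Finset.range (m + 1 - 1), R ^ (p * (2 * (m + 1) + 2) + (2 * i + j) + 1) :=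
    Finset.single_le_sum (f := fun i => R ^ (p * (2 * (m + 1) + 2) + (2 * i + j) + 1))
      (fun _ _ => Nat.zero_le _) (Finset.mem_range.mpr (by omega))
  refine le_trans ?_ h1
  exact Nat.le_self_pow (by omega) R

theorem RE_block (m R D n p : ℕ) (x : Lt) (hm : 2 ≤ m)
    (hx : ∀ v, x = Lt.k v → |v.1| ≤ n ∧ |v.2| ≤ n) (hR : D * n < R) :
    ((List.range (2 * (m + 1) + 2)).map
      (fun u => DZ.letter (RE_sg m u) ^ exl (m + 1) R D p x u)).prod = vl D x := by
  have e1 : 2 * (m + 1) + 2 = 2 * m + 1 + 1 + 1 + 1 := by ring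
  rw [e1, List.range_succ, List.range_succ, List.range_succ, List.range_succ]
  simp only [List.map_append, List.prod_append, List.map_cons, List.map_nil, List.prod_cons,
    List.prod_nil, mul_one]
  have s0 : RE_sg m (2 * m) = 1 := by
    unfold RE_sg; rw [if_neg (by omega), if_pos rfl]
  have s1 : RE_sg m (2 * m + 1) = 3 := by
    unfold RE_sg; rw [if_neg (by omega), if_neg (by omega), if_pos rfl]
  have s2 : RE_sg m (2 * m + 1 + 1) = 4 := by
    unfold RE_sg
    rw [if_neg (by omega), if_neg (by omega), if_neg (by omega), if_pos (by omega)]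
  have s3 : RE_sg m (2 * m + 1 + 1 + 1) = 5 := by
    unfold RE_sg
    rw [if_neg (by omega), if_neg (by omega), if_neg (by omega), if_neg (by omega)]
  rw [s0, s1, s2, s3]
  have hl4 : DZ.letter 4 = Monoid.Coprod.inr (Multiplicative.ofAdd (1 : ℤ)) := rfl
  have hl5 : DZ.letter 5 = (Monoid.Coprod.inr (Multiplicative.ofAdd (1 : ℤ)))⁻¹ := rfl
  cases x with
  | c b =>
    have hz : ((List.range (2 * m)).map
        (fun u => DZ.letter (RE_sg m u) ^ exl (m + 1) R D p (Lt.c b) u)).prod = 1 := by
      apply List.prod_eq_one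
      intro y hy
      rw [List.mem_map] at hy
      obtain ⟨u, hu, rfl⟩ := hy
      rw [List.mem_range] at hu
      have : exl (m + 1) R D p (Lt.c b) u = 0 := by
        cases b
        · unfold exl; simp only; rw [if_neg (by omega)]
        · unfold exl; simp only; rw [if_neg (by omega)]
      rw [this, pow_zero]
    rw [hz]
    cases b
    · have x0 : exl (m + 1) R D p (Lt.c false) (2 * m) = 0 := by
        unfold exl; simp only; rw [if_neg (by omega)]
      have x1 : exl (m + 1) R D p (Lt.c false) (2 * m + 1) = 0 := by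
        unfold exl; simp only; rw [if_neg (by omega)]
      have x2 : exl (m + 1) R D p (Lt.c false) (2 * m + 1 + 1) = 0 := by
        unfold exl; simp only; rw [if_neg (by omega)]
      have x3 : exl (m + 1) R D p (Lt.c false) (2 * m + 1 + 1 + 1) = 1 := by
        unfold exl; simp only; rw [if_pos (by omega)]
      rw [x0, x1, x2, x3, hl5]
      simp [vl]
    · have x0 : exl (m + 1) R D p (Lt.c true) (2 * m) = 0 := by
        unfold exl; simp only; rw [if_neg (by omega)]
      have x1 : exl (m + 1) R D p (Lt.c true) (2 * m + 1) = 0 := by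
        unfold exl; simp only; rw [if_neg (by omega)]
      have x2 : exl (m + 1) R D p (Lt.c true) (2 * m + 1 + 1) = 1 := by
        unfold exl; simp only; rw [if_pos (by omega)]
      have x3 : exl (m + 1) R D p (Lt.c true) (2 * m + 1 + 1 + 1) = 0 := by
        unfold exl; simp only; rw [if_neg (by omega)]
      rw [x0, x1, x2, x3, hl4]
      simp [vl]
  | k v =>
    obtain ⟨hv1, hv2⟩ := hx v rfl
    have x0 : exl (m + 1) R D p (Lt.k v) (2 * m) = ((SR (m + 1) R p 0 : ℤ) - D * v.1).toNat := by
      unfold exl; simp only; rw [if_neg (by omega), if_pos (by omega)]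
    have x1 : exl (m + 1) R D p (Lt.k v) (2 * m + 1) = ((SR (m + 1) R p 1 : ℤ) - D * v.2).toNat := by
      unfold exl; simp only; rw [if_neg (by omega), if_neg (by omega), if_pos (by omega)]
    have x2 : exl (m + 1) R D p (Lt.k v) (2 * m + 1 + 1) = 0 := by
      unfold exl; simp only; rw [if_neg (by omega), if_neg (by omega), if_neg (by omega)]
    have x3 : exl (m + 1) R D p (Lt.k v) (2 * m + 1 + 1 + 1) = 0 := by
      unfold exl; simp only; rw [if_neg (by omega), if_neg (by omega), if_neg (by omega)]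
    rw [x0, x1, x2, x3, RE_long m R D p v m le_rfl, RE_l1, RE_l3, pow_zero, pow_zero, mul_one,
      mul_one, ← DZ.zz_add, ← DZ.zz_add]
    have hSR0 := RE_SR m R p 0 (by omega)
    have hSR1 := RE_SR m R p 1 (by omega)
    have hb : ∀ w : ℤ, |w| ≤ n → (D : ℤ) * w < R := by
      intro w hw
      have h1 : (D : ℤ) * w ≤ D * n := by
        apply mul_le_mul_of_nonneg_left ((le_abs_self w).trans hw) (by positivity)
      have h2 : (D : ℤ) * n < R := by exact_mod_cast hR
      linarith
    have h1 := hb v.1 hv1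
    have h2 := hb v.2 hv2
    have hSR0' : (R : ℤ) ≤ SR (m + 1) R p 0 := by exact_mod_cast hSR0
    have hSR1' : (R : ℤ) ≤ SR (m + 1) R p 1 := by exact_mod_cast hSR1
    rw [Int.toNat_of_nonneg (by linarith), Int.toNat_of_nonneg (by linarith)]
    unfold vl
    congr 1
    have hS0 : (((∑ i ∈ Finset.range m, R ^ (p * (2 * (m + 1) + 2) + (2 * i + 0) + 1) : ℕ)) : ℤ) =
        SR (m + 1) R p 0 := rfl
    have hS1 : (((∑ i ∈ Finset.range m, R ^ (p * (2 * (m + 1) + 2) + (2 * i + 1) + 1) : ℕ)) : ℤ) =
        SR (m + 1) R p 1 := rfl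
    rw [hS0, hS1]
    ext
    · simp
    · simp

theorem RE : RE_stmt := by
  intro h R D n s hh hs hbox hR
  obtain ⟨m, rfl⟩ : ∃ m, h = m + 1 := ⟨h - 1, by omega⟩
  unfold real wd
  rw [RE_flat, RE_blocks]
  have h1 : ∀ p ∈ List.range n, ((List.range (2 * (m + 1) + 2)).map (fun u =>
      DZ.ev (List.replicate (ex (m + 1) R D s (p * (2 * (m + 1) + 2) + u))
        (sg (m + 1) (p * (2 * (m + 1) + 2) + u))))).prod =
      (fun p => (s.toList[p]?).elim 1 (vl D)) p := by
    intro p _
    have h2 : ∀ u ∈ List.range (2 * (m + 1) + 2),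
        DZ.ev (List.replicate (ex (m + 1) R D s (p * (2 * (m + 1) + 2) + u))
        (sg (m + 1) (p * (2 * (m + 1) + 2) + u))) = DZ.letter (RE_sg m u) ^
          ((s.toList[p]?).elim 0 (fun x => exl (m + 1) R D p x u)) := by
      intro u hu
      rw [List.mem_range] at hu
      rw [RE_ev_rep, RE_sg_eq m p u hu, RE_ex_eq (m + 1) R D s p u hu]
    rw [List.map_congr_left h2]
    cases hx : s.toList[p]? with
    | none => simp [hx]
    | some x =>
      simp only [hx, Option.elim_some]
      apply RE_block m R D n p x (by omega) _ hR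
      intro v hv
      apply hbox v
      rw [← hv]
      exact List.mem_of_getElem? hx
  rw [List.map_congr_left h1, RE_getElem (vl D) s.toList n hs]
  unfold val
  rw [FreeMonoid.lift_apply]

end WZ
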