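import Pool.Agent.helper84.WZ.SpecA

set_option autoImplicit false

namespace WZ

theorem SPN (hWDA : WDA_stmt) (hONE : ONE_stmt) : SPN_stmt := by
  intro T S σ β r s e hrs h
  induction h with
  | nl h => exact absurd hrs (lt_irrefl _)
  | @rd β γ r q s e hrd hrq hDX ih =>
    rcases Nat.eq_or_lt_of_le hrq with h | h
    · subst h
      obtain ⟨δ, x, y, h1, h2, h3⟩ := ih hrs
      refine ⟨δ, x + (1, 0), y, Sys.Sp.rd hrd h1, ?_, h3⟩
      rw [h2]
      simp only [Prod.fst_add, Prod.snd_add, Pi.single_add, add_zero]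
      abel
    · refine ⟨β, 0, e + Pi.single q 1, Sys.Sp.refl β, ?_,
        Or.inl ⟨γ, q, e, hrd, h, (hWDA T S σ γ q s e hDX).1, hDX, rfl⟩⟩
      simp
  | @sp β α γ r q s e e' hsp h1 h2 ih1 ih2 =>
    have hrq := (hWDA T S σ α r q e h1).1
    have hqs := (hWDA T S σ γ q s e' h2).1
    rcases Nat.eq_or_lt_of_le hrq with h | h
    · subst h
      obtain ⟨n, hn, hd⟩ := (hONE T S σ α r e).1 h1
      obtain ⟨δ, x, y, k1, k2, k3⟩ := ih2 hrs
      refine ⟨δ, x + (n, 0), y, Sys.Sp.lf hsp hd k1, ?_, k3⟩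
      rw [k2, hn]
      simp only [Prod.fst_add, Prod.snd_add, Pi.single_add, add_zero]
      abel
    · rcases Nat.eq_or_lt_of_le hqs with h' | h'
      · subst h'
        obtain ⟨n, hn, hd⟩ := (hONE T S σ γ q e').1 h2
        obtain ⟨δ, x, y, k1, k2, k3⟩ := ih1 hrs
        refine ⟨δ, x + (0, n), y, Sys.Sp.rt hsp hd k1, ?_, k3⟩
        rw [k2, hn]
        simp only [Prod.fst_add, Prod.snd_add, Pi.single_add, add_zero]
        abel
      · refine ⟨β, 0, e + e', Sys.Sp.refl β, ?_,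
          Or.inr ⟨α, γ, q, e, e', hsp, h, h', h1, h2, rfl⟩⟩
        simp

end WZ
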